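import Pool.Agent.H644.HD.AlephTwo

/-!
# `𝔟(≠*_I) ≤ 𝔡(≠*_J)` if the continuum is at most `ℵ₂`

Proof for `𝔠 = ℵ₂` (under `𝔠 = ℵ₁` it is easier). Let `𝔟_𝔠` be the least size of a family of
functions `𝔠 → 𝔠` which is unbounded modulo bounded sets, and `F` such a family. The inequality
`𝔟_𝔠 ≤ 𝔡(≠*_∅) ≤ 𝔡(≠*_J)` holds for all successors `𝔠`. To see `𝔟(≠*_I) ≤ 𝔟_𝔠`, let
`e_β : β → ω₁` (`β < ω₂`) be one-to-one, and for `k ∈ F` let `g_k(y) = e_δ(y)` for the least
`δ > y` closed under `k`.

* If uncountably many elements of `A` are between `α` and `k(α)` for some `α`, then `g_k` is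
  unbounded in `ω₁` on `A`, since `δ` is the same for all of them. If `n(α)` bounds the
  first `ω₁` elements of `A` above `α`, it is enough that `n(α) < k(α)` for some `α`.
* `F` is unbounded for `ω₂` many functions at once. Hence for all `h_b : ω₂ → ω₂` (`b < ω₂`) there
  is `f ∈ F` such that all `A_b = {y : h_b(y) < f(y)}` are unbounded; the function
  `e_{f(y)}(h_b(y))` has a constant value `t_b` on an unbounded subset of `A_b`; and there is
  `k ∈ F` such that for each `b` there is a point `y` of this subset with `t_b < g_k(y)`.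
  So `h_b(y)` belongs to the countable set `{β < f(y) : e_{f(y)}(β) < g_k(y)}`.
* Countably many reals are infinitely often equal to one real. For a base `B_b` (`b < 𝔠`) of `I` and
  different points `x(b, y) ∉ B_b` this gives `|F|` many functions which are unbounded for `≠*_I`.
-/

set_option autoImplicit false

open Cardinal MeasureTheory

namespace Pool.Agent.Results.MP_531aff_lc.ContinuumAtMostAlephTwo

open Pool.Agent.H644.HD

/-- Let `μ` be a probability measure on Baire space without point masses, `I` one of the ideals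
of the `μ`-null sets, of the meagre sets and of the subsets of `σ`-compact sets, and `J` one of
these or the trivial ideal `{∅}`. If the continuum is at most `ℵ₂`, then
`𝔟(≠*_I) ≤ 𝔡(≠*_J)`. -/
theorem result (μ : Measure BS) [IsProbabilityMeasure μ] (h0 : ∀ x : BS, μ {x} = 0)
    (I J : Set (Set BS)) (hI : I = nullSets μ ∨ I = meagreSets ∨ I = sigmaCompactSets)
    (hJ : J = nullSets μ ∨ J = meagreSets ∨ J = sigmaCompactSets ∨ J = {∅})
    (hc : (𝔠 : Cardinal.{0}) ≤ ℵ_ 2) : bNe I ≤ dNe J := by
  have hIg : Good I := by
    rcases hI with rfl | rfl | rfl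
    · exact good_null μ h0
    · exact good_meagre
    · exact good_sigmaCompact
  have hle : dNe {∅} ≤ dNe J := by
    rcases hJ with rfl | rfl | rfl | rfl
    · exact dNe_empty_le (good_null μ h0)
    · exact dNe_empty_le good_meagre
    · exact dNe_empty_le good_sigmaCompact
    · exact le_rfl
  exact (AlephTwo.main hIg hc {∅} lus_empty rfl).trans hle

end Pool.Agent.Results.MP_531aff_lc.ContinuumAtMostAlephTwo
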